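import Pool.Agent.Helper88_SA.StmtP

/-! QUIET -/

namespace SA.H75

open SA Filter Topology

theorem pow_bound_quiet {r : ℝ} (h0 : 0 ≤ r) (h1 : r ≤ 1.00000992) {i : ℕ} (hi : i ≤ 6475) :
    r ^ i ≤ 1.069 := by
  have e1 : r ≤ Real.exp (0.00000992) := by
    have := Real.add_one_le_exp (0.00000992 : ℝ)
    linarith
  have e2 : r ^ i ≤ Real.exp (0.00000992) ^ i := pow_le_pow_left₀ h0 e1 i
  have e3 : Real.exp (0.00000992) ^ i = Real.exp ((i : ℝ) * 0.00000992) := by
    rw [← Real.exp_nat_mul]
  have hi' : (i : ℝ) ≤ 6475 := by exact_mod_cast hi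
  have e4 : Real.exp ((i : ℝ) * 0.00000992) ≤ Real.exp 0.064232 := by
    apply Real.exp_le_exp.2
    nlinarith
  have e5 : Real.exp 0.064232 ≤ 1.069 := by
    have h2 := Real.add_one_le_exp (-0.064232 : ℝ)
    rw [Real.exp_neg] at h2
    have h3 := Real.exp_pos (0.064232 : ℝ)
    have h4 : (0.935768 : ℝ) * Real.exp 0.064232 ≤ 1 := by
      have h5 : (0.935768 : ℝ) ≤ (Real.exp 0.064232)⁻¹ := by linarith
      calc (0.935768 : ℝ) * Real.exp 0.064232 ≤ (Real.exp 0.064232)⁻¹ * Real.exp 0.064232 :=
            mul_le_mul_of_nonneg_right h5 h3.le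
        _ = 1 := inv_mul_cancel₀ h3.ne'
    linarith
  linarith [e3 ▸ e2]

theorem quiet (a : AlgA) (hstepC : StepCStmt) (hwrep : WrepStmt) (hnop : NopStmt) :
    QuietStmt := by
  intro T x0 z th ctx k hk hz
  have hr0 := ctx.nr.rho_lo
  have hr1 := ctx.nr.rho_hi
  have hA0 := abs_le.1 ctx.sim.Abd
  -- strengthened induction
  have main : ∀ i, i ≤ k → (PP T x0 z th i ∧ kap T (1525 + i) = 0 ∧ Dn T (1525 + i) = 0 ∧
      0 < Wn T (1525 + i)) ∧
      ‖xin T x0 th (1525 + i)‖ = (x0 / ‖th‖) ^ i * ‖xin T x0 th 1525‖ := by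
    intro i
    induction i using Nat.strong_induction_on with
    | _ i ih =>
      intro hik
      have hval : ∀ m, m < 1525 + i → Valid T m := by
        intro m hm
        rcases Nat.lt_or_ge m 1525 with h | h
        · exact ctx.sim.valid m h
        · obtain ⟨j, rfl⟩ : ∃ j, m = 1525 + j := ⟨m - 1525, by omega⟩
          exact (ih j (by omega) (by omega)).1.1.val
      have hC : 0 < Cn T x0 (1525 + i) ∧
          ‖xin T x0 th (1525 + i)‖ = (x0 / ‖th‖) ^ i * ‖xin T x0 th 1525‖ := by
        rcases Nat.eq_zero_or_pos i with h | h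
        · subst h
          exact ⟨ctx.sim.Cpos, by simp⟩
        · obtain ⟨j, rfl⟩ : ∃ j, i = j + 1 := ⟨i - 1, by omega⟩
          obtain ⟨⟨h1, h2, h3, h4⟩, h5⟩ := ih j (by omega) (by omega)
          have h6 := hstepC T x0 z th ctx (1525 + j) (fun m hm => hval m (by omega)) h1.Cpos
            (by omega) (by rw [h3]; nlinarith [h1.Cpos])
          obtain ⟨-, -, h7, -, -, h8⟩ := h6
          refine ⟨h7, ?_⟩
          have h9 := (h8 h3).2.2
          have e : 1525 + (j + 1) = 1525 + j + 1 := by omega
          rw [e, h9, h5, pow_succ]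
          ring
      obtain ⟨hCpos, hAm⟩ := hC
      have hpow0 : 1 ≤ (x0 / ‖th‖) ^ i := one_le_pow₀ (by linarith)
      have hpow1 : (x0 / ‖th‖) ^ i ≤ 1.069 :=
        pow_bound_quiet (by linarith) hr1 (by omega)
      have hAlo : 0.92 ≤ ‖xin T x0 th (1525 + i)‖ := by
        rw [hAm]; nlinarith [hA0.1, hA0.2]
      have hAhi : ‖xin T x0 th (1525 + i)‖ ≤ 0.9855 := by
        rw [hAm]; nlinarith [hA0.1, hA0.2]
      have hHH : HH T x0 z th i := fun j hj => (ih j hj (by omega)).1.1
      have hne : xin T x0 th (1525 + i) ≠ 0 := by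
        intro h
        rw [h, norm_zero] at hAlo
        linarith
      have hpast : past T x0 z th i = 0 := by
        unfold past
        refine Finset.sum_eq_zero fun j hj => ?_
        rw [Finset.mem_filter, Finset.mem_range] at hj
        refine Finset.sum_eq_zero fun d hd => ?_
        rw [Finset.mem_Icc] at hd
        have h1 := (ih j hj.1 (by omega)).1
        have h2 := (a.pds T (1525 + j) (fun m hm => hval m (by omega))).2.1 d (by omega) hd.2
        rw [h2, zero_mul]
      have hw := hwrep T x0 z th ctx i hHH hne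
      rw [hpast, sub_zero] at hw
      have hw' := abs_le.1 hw
      have hCk : Ck T x0 i = Cn T x0 (1525 + i) := rfl
      have hAmk : Am T x0 th i = ‖xin T x0 th (1525 + i)‖ := rfl
      rw [hCk, hAmk] at hw'
      obtain ⟨hz0, hz1⟩ := hz i hik
      set C := Cn T x0 (1525 + i)
      set A := ‖xin T x0 th (1525 + i)‖
      set c := Real.cos (omg th * pp T x0 th i)
      have hc1 : A * c ≤ A := by
        have := Real.cos_le_one (omg th * pp T x0 th i)
        nlinarith
      have hc2 : - A ≤ A * c := by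
        have := Real.neg_one_le_cos (omg th * pp T x0 th i)
        nlinarith
      have hW : 0 < Wn T (1525 + i) := by
        have : C * (1 - A * c + ztn T x0 z (1525 + i)) ≥ C * (1 - 0.9855) :=
          mul_le_mul_of_nonneg_left (by linarith) hCpos.le
        nlinarith [hw'.1]
      have hW4 : Wn T (1525 + i) ≤ 4 * C := by
        have : C * (1 - A * c + ztn T x0 z (1525 + i)) ≤ C * 3 :=
          mul_le_mul_of_nonneg_left (by norm_num at hz1 ⊢; linarith) hCpos.le
        nlinarith [hw'.2]
      have hk1 : kap T (1525 + i - 1) = 0 := by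
        rcases Nat.eq_zero_or_pos i with h | h
        · subst h
          exact ctx.sim.kap_quiet 1524 (by norm_num) (by norm_num)
        · have e : 1525 + i - 1 = 1525 + (i - 1) := by omega
          rw [e]
          exact (ih (i - 1) (by omega) (by omega)).1.2.1
      obtain ⟨hv, hkap, hD, -⟩ := hnop T (1525 + i) (by omega) hval hk1 hW
      refine ⟨⟨⟨hCpos, by linarith, by norm_num at hAhi ⊢; linarith, hz0, hz1, hv, ?_, ?_, hW4⟩,
        hkap, hD, hW⟩, hAm⟩
      · rw [hD]
        positivity
      · rw [hkap]; exact Nat.zero_le _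
  exact fun i hi => (main i hi).1

end SA.H75
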