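import Pool.Agent.Helper88_SA.StmtP

/-! STEPA -/

namespace SA.H75

open SA Filter Topology

/-- norm of `A - V` for a small complex `V` -/
theorem norm_sub_le_aux {A : ℝ} {V : ℂ} (hA : 0.9 ≤ A) (hV : ‖V‖ ≤ 1.3 / 10 ^ 3) :
    ‖(A : ℂ) - V‖ ≤ A - V.re + ‖V‖ / 10 ^ 3 := by
  have h1 : |V.re| ≤ ‖V‖ := Complex.abs_re_le_norm V
  have h2 : |V.im| ≤ ‖V‖ := Complex.abs_im_le_norm V
  have h1' := abs_le.1 h1
  have h0 := norm_nonneg V
  have hX : 0 < A - V.re := by linarith
  have hY : V.im ^ 2 ≤ ‖V‖ ^ 2 := by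
    rw [← sq_abs V.im]
    exact pow_le_pow_left₀ (abs_nonneg _) h2 2
  have hn : ‖(A : ℂ) - V‖ ^ 2 = (A - V.re) ^ 2 + V.im ^ 2 := by
    rw [Complex.sq_norm, Complex.normSq_apply]
    simp only [Complex.sub_re, Complex.sub_im, Complex.ofReal_re, Complex.ofReal_im]
    ring
  have hR : 0 ≤ A - V.re + ‖V‖ / 10 ^ 3 := by positivity
  refine le_of_sq_le_sq ?_ hR
  rw [hn]
  nlinarith
where
  le_of_sq_le_sq {x y : ℝ} (h : x ^ 2 ≤ y ^ 2) (hy : 0 ≤ y) : x ≤ y := by
    nlinarith [abs_le_of_sq_le_sq' h hy]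

theorem arctan_le_self' {x : ℝ} (h : 0 ≤ x) : Real.arctan x ≤ x := by
  have h1 := Real.arctan_nonneg.2 h
  have h2 := Real.arctan_lt_pi_div_two x
  have h3 := Real.le_tan h1 h2
  rwa [Real.tan_arctan] at h3

theorem abs_arg_le {w : ℂ} (h : 0 < w.re) : |w.arg| ≤ |w.im| / w.re := by
  have h1 : w.arg = Real.arctan (w.im / w.re) := by
    rw [← Complex.tan_arg w]
    have h2 : |w.arg| < Real.pi / 2 := Complex.abs_arg_lt_pi_div_two_iff.2 (Or.inl h)
    rw [Real.arctan_tan (abs_lt.1 h2).1 (abs_lt.1 h2).2]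
  rw [h1]
  have h2 : |Real.arctan (w.im / w.re)| ≤ |w.im / w.re| := by
    rcases le_total 0 (w.im / w.re) with h3 | h3
    · rw [abs_of_nonneg (Real.arctan_nonneg.2 h3), abs_of_nonneg h3]
      exact arctan_le_self' h3
    · have h4 : Real.arctan (w.im / w.re) ≤ 0 := by
        have := Real.arctan_nonneg.2 (neg_nonneg.2 h3)
        rw [Real.arctan_neg] at this; linarith
      rw [abs_of_nonpos h4, abs_of_nonpos h3, ← Real.arctan_neg]
      exact arctan_le_self' (neg_nonneg.2 h3)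
  rw [abs_div, abs_of_pos h] at h2
  exact h2

theorem zm_le : ∀ d : ℕ, zm d ≤ d * 64511046359 := by
  intro d
  rcases Nat.lt_or_ge d 11 with h | h
  · interval_cases d <;> decide
  · have : zm d = 0 := by
      unfold zm zmL
      exact List.getD_eq_default _ _ (by simpa using h)
    rw [this]; positivity

theorem zm_nonneg : ∀ d : ℕ, 0 ≤ zm d := by
  intro d
  rcases Nat.lt_or_ge d 11 with h | h
  · interval_cases d <;> decide
  · have : zm d = 0 := by
      unfold zm zmL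
      exact List.getD_eq_default _ _ (by simpa using h)
    rw [this]

theorem stepA (a : AlgA) (b : NumA) (hm : MstepStmt) (hp : PhrepStmt) (hc : CycbStmt) :
    StepAStmt := by
  intro T x0 z th ctx k hPP
  have hk := hPP k le_rfl
  have hval : ∀ m, m ≤ 1525 + k → Valid T m := by
    intro m hm
    rcases Nat.lt_or_ge m 1525 with h | h
    · exact ctx.sim.valid m h
    · obtain ⟨j, rfl⟩ : ∃ j, m = 1525 + j := ⟨m - 1525, by omega⟩
      exact (hPP j (by omega)).val
  have hne : ∀ i, i ≤ k → xin T x0 th (1525 + i) ≠ 0 := by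
    intro i hi h
    have := (hPP i hi).Alo
    rw [h, norm_zero] at this
    norm_num at this
  obtain ⟨-, -, hcell1, hcell2, -⟩ := hc T x0 z th ctx k
  obtain ⟨-, hrep, -⟩ := hp T x0 z th ctx k hne
  obtain ⟨hm1, -, hm3⟩ := hm T x0 z th ctx (1525 + k) hval
  obtain ⟨p1, p2, p3, -, -⟩ := a.pds T (1525 + k) hval
  have hC : 0 < Cn T x0 (1525 + k) := hk.Cpos
  set C := Cn T x0 (1525 + k) with hCdef
  have hdm := b.pass.dmax (cell T x0 th k)
  have hDmax := b.pass.Dmax (cell T x0 th k)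
  have hkle := hk.kle
  have hx0 : 1.0380665629 ≤ x0 := ctx.nr.x0_lo
  have hx0p : 0 < x0 := by linarith
  have hthp := ctx.nr.th_pos
  have hrho0 := ctx.nr.rho_lo
  have hrho1 := ctx.nr.rho_hi
  have hom := abs_le.1 ctx.nr.omg_enc
  have hompos : 0 < omg th := by norm_num at hom; linarith [hom.1]
  -- the pauses
  have hpi0 : ∀ d ∈ Finset.Icc (1 : ℕ) 55, 0 ≤ pih T x0 k d := by
    intro d hd
    rw [Finset.mem_Icc] at hd
    exact div_nonneg (p1 d hd.1 hd.2).1 hC.le
  have hpiz : ∀ d ∈ Finset.Icc (1 : ℕ) 55, pih T x0 k d = 0 ∨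
      (1 ≤ d ∧ d ≤ dmt (cell T x0 th k) ∧ d ≤ 10 ∧ -47 ≤ cell T x0 th k ∧ cell T x0 th k < 24) := by
    intro d hd
    rw [Finset.mem_Icc] at hd
    rcases Nat.lt_or_ge (kap T (1525 + k)) d with h | h
    · left
      unfold pih
      rw [p2 d h hd.2, zero_div]
    · right
      refine ⟨hd.1, h.trans hkle, by omega, ?_⟩
      by_contra hcon
      have h0 : dmt (cell T x0 th k) = 0 := by
        unfold dmt
        rw [if_neg hcon]
      omega
  have hpd : ∀ d, pd T (1525 + k) d = C * pih T x0 k d := by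
    intro d
    unfold pih
    rw [mul_div_cancel₀ _ hC.ne']
  have hsum : ∑ d ∈ Finset.Icc (1 : ℕ) 55, (d : ℝ) * pih T x0 k d = Dh T x0 k := by
    unfold Dh
    rw [← p3 (by omega), Finset.sum_div]
    refine Finset.sum_congr rfl fun d _ => ?_
    unfold pih
    rw [mul_div_assoc]
  have hDh0 : 0 ≤ Dh T x0 k := by
    rw [← hsum]
    exact Finset.sum_nonneg fun d hd => mul_nonneg (Nat.cast_nonneg d) (hpi0 d hd)
  have hDh1 : Dh T x0 k ≤ (Dt (cell T x0 th k) : ℝ) / 10 ^ 6 := by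
    unfold Dh
    rw [div_le_iff₀ hC, mul_comm]
    exact hk.Dle
  have hDh2 : Dh T x0 k ≤ 2 := by
    refine hDh1.trans ?_
    have : (Dt (cell T x0 th k) : ℝ) ≤ 2000000 := by exact_mod_cast hDmax
    linarith
  have hkk0 : 0 ≤ kk T x0 th k := Finset.sum_nonneg fun d hd =>
    mul_nonneg (by positivity) (hpi0 d hd)
  have hzz0 : 0 ≤ zz T x0 k := Finset.sum_nonneg fun d hd => by
    have : (0 : ℝ) ≤ (zm d : ℝ) := by exact_mod_cast zm_nonneg d
    exact mul_nonneg (by positivity) (hpi0 d hd)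
  have hzz1 : zz T x0 k ≤ 6.46 / 10 ^ 4 * Dh T x0 k := by
    have h1 : zz T x0 k ≤ ∑ d ∈ Finset.Icc (1 : ℕ) 55,
        6.46 / 10 ^ 4 * ((d : ℝ) * pih T x0 k d) := by
      refine Finset.sum_le_sum fun d hd => ?_
      have h2 : (zm d : ℝ) ≤ d * 64511046359 := by exact_mod_cast zm_le d
      have h3 : (zm d : ℝ) / 10 ^ 14 ≤ 6.46 / 10 ^ 4 * d := by
        have : (0 : ℝ) ≤ d := Nat.cast_nonneg d
        rw [div_le_iff₀ (by norm_num)]
        nlinarith
      calc (zm d : ℝ) / 10 ^ 14 * pih T x0 k d ≤ 6.46 / 10 ^ 4 * d * pih T x0 k d :=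
            mul_le_mul_of_nonneg_right h3 (hpi0 d hd)
        _ = _ := by ring
    rw [← Finset.mul_sum, hsum] at h1
    exact h1
  -- the vector V
  set w := omg th with hw
  set p := pp T x0 th k with hpdef
  set A := Am T x0 th k with hAdef
  have hA0 : 0.9 ≤ A := hk.Alo
  have hA1 : A ≤ 1.0573 := hk.Ahi
  set E : ℂ := Complex.exp (-((w : ℂ) * (p : ℂ) * Complex.I)) with hE
  have hEn : ‖E‖ = 1 := by
    rw [hE]
    have : -((w : ℂ) * (p : ℂ) * Complex.I) = ((-(w * p) : ℝ) : ℂ) * Complex.I := by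
      push_cast; ring
    rw [this, Complex.norm_exp_ofReal_mul_I]
  have hxE : xin T x0 th (1525 + k) * E = (A : ℂ) := by
    rw [hrep, hE, mul_assoc, ← Complex.exp_add]
    have : ((w * p : ℝ) : ℂ) * Complex.I + -((w : ℂ) * (p : ℂ) * Complex.I) = 0 := by
      push_cast; ring
    rw [this, Complex.exp_zero, mul_one]
  set v : ℕ → ℂ := fun d => th * zdc T th d * E with hv
  have hvn : ∀ d, ‖v d‖ = ‖th * zdc T th d‖ := by
    intro d
    simp only [hv]
    rw [norm_mul, hEn, mul_one]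
  set V : ℂ := ∑ d ∈ Finset.Icc (1 : ℕ) 55, (pih T x0 k d : ℂ) * v d with hV
  have hVn : ‖V‖ ≤ ∑ d ∈ Finset.Icc (1 : ℕ) 55, pih T x0 k d * ‖v d‖ := by
    refine (norm_sum_le _ _).trans (Finset.sum_le_sum fun d hd => ?_)
    rw [norm_mul, Complex.norm_real, Real.norm_of_nonneg (hpi0 d hd)]
  have hVz : ‖V‖ ≤ zz T x0 k := by
    refine hVn.trans (Finset.sum_le_sum fun d hd => ?_)
    rcases hpiz d hd with h | ⟨h1, -, h3, -⟩
    · rw [h]; simp
    · rw [hvn, mul_comm]
      refine mul_le_mul_of_nonneg_right ?_ (hpi0 d hd)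
      have := ctx.ncell.zm d h1 h3
      have h4 := norm_nonneg (th * zdc T th d)
      linarith
  have hVs : ‖V‖ ≤ 1.3 / 10 ^ 3 := by
    refine hVz.trans (hzz1.trans ?_)
    nlinarith
  have hVre : V.re = ∑ d ∈ Finset.Icc (1 : ℕ) 55, pih T x0 k d * (v d).re := by
    rw [hV, Complex.re_sum]
    refine Finset.sum_congr rfl fun d _ => ?_
    rw [Complex.re_ofReal_mul]
  have hVim : V.im = ∑ d ∈ Finset.Icc (1 : ℕ) 55, pih T x0 k d * (v d).im := by
    rw [hV, Complex.im_sum]
    refine Finset.sum_congr rfl fun d _ => ?_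
    rw [Complex.im_ofReal_mul]
  -- the number e
  set e : ℝ := -∑ d ∈ Finset.Icc (1 : ℕ) 55, pih T x0 k d * (x0 * cdc T x0 d) with he
  have he0 : 0 ≤ e := by
    rw [he, ← Finset.sum_neg_distrib]
    refine Finset.sum_nonneg fun d hd => ?_
    rcases hpiz d hd with h | ⟨h1, -, h3, -⟩
    · rw [h]; simp
    · have h4 := (ctx.nk.cd d h1 h3).1
      have h5 := hpi0 d hd
      have : x0 * cdc T x0 d ≤ 0 := mul_nonpos_of_nonneg_of_nonpos hx0p.le h4
      nlinarith
  have he1 : e ≤ 2 / 10 ^ 5 := by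
    have h6 : e ≤ ∑ d ∈ Finset.Icc (1 : ℕ) 55, 8.73 / 10 ^ 6 * ((d : ℝ) * pih T x0 k d) := by
      rw [he, ← Finset.sum_neg_distrib]
      refine Finset.sum_le_sum fun d hd => ?_
      rcases hpiz d hd with h | ⟨h1, -, h3, -⟩
      · rw [h]; simp
      · have h4 := (ctx.nk.cd d h1 h3).2
        have h5 := hpi0 d hd
        nlinarith
    rw [← Finset.mul_sum, hsum] at h6
    nlinarith
  have h1e : 0 < 1 - e := by linarith
  have hCe : x0 * Cn T x0 (1525 + k + 1) = C * (1 - e) := by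
    rw [hm1, he]
    have : ∑ d ∈ Finset.Icc (1 : ℕ) 55, pd T (1525 + k) d * (x0 * cdc T x0 d) =
        C * ∑ d ∈ Finset.Icc (1 : ℕ) 55, pih T x0 k d * (x0 * cdc T x0 d) := by
      rw [Finset.mul_sum]
      refine Finset.sum_congr rfl fun d _ => ?_
      rw [hpd]; ring
    rw [this]
    ring
  have hC' : 0 < Cn T x0 (1525 + k + 1) := by
    have : 0 < x0 * Cn T x0 (1525 + k + 1) := by rw [hCe]; positivity
    exact pos_of_mul_pos_of_pos_left' this hx0p
  have hCc : (C : ℂ) ≠ 0 := by exact_mod_cast hC.ne'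
  have hC'c : (Cn T x0 (1525 + k + 1) : ℂ) ≠ 0 := by exact_mod_cast hC'.ne'
  have hx0c : (x0 : ℂ) ≠ 0 := by exact_mod_cast hx0p.ne'
  have h1ec : (1 - (e : ℂ)) ≠ 0 := by
    have : ((1 - e : ℝ) : ℂ) ≠ 0 := by exact_mod_cast h1e.ne'
    simpa using this
  have hZ : Zn T th (1525 + k) * E = -(C : ℂ) * A := by
    have h7 : xin T x0 th (1525 + k) = -Zn T th (1525 + k) / (C : ℂ) := rfl
    have h8 : Zn T th (1525 + k) = -(xin T x0 th (1525 + k) * C) := by
      rw [h7]; field_simp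
    rw [h8]
    linear_combination (-(C : ℂ)) * hxE
  have hthZ : th * Zn T th (1525 + k + 1) * E = -(C : ℂ) * (A - V) := by
    rw [hm3, add_mul, hZ, Finset.sum_mul]
    have : ∑ d ∈ Finset.Icc (1 : ℕ) 55, (pd T (1525 + k) d : ℂ) * (th * zdc T th d) * E =
        C * V := by
      rw [hV, Finset.mul_sum]
      refine Finset.sum_congr rfl fun d _ => ?_
      rw [hpd]
      simp only [hv]
      push_cast
      ring
    rw [this]
    ring
  have hCec : (x0 : ℂ) * (Cn T x0 (1525 + k + 1) : ℂ) = (C : ℂ) * (1 - (e : ℂ)) := by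
    exact_mod_cast hCe
  have hkey : xin T x0 th (1525 + k + 1) * th * E = x0 * ((A : ℂ) - V) / (1 - (e : ℂ)) := by
    have h7 : xin T x0 th (1525 + k + 1) =
        -Zn T th (1525 + k + 1) / (Cn T x0 (1525 + k + 1) : ℂ) := rfl
    rw [h7, eq_div_iff h1ec]
    have h9 : -Zn T th (1525 + k + 1) / (Cn T x0 (1525 + k + 1) : ℂ) * th * E =
        (C : ℂ) * (A - V) / (Cn T x0 (1525 + k + 1) : ℂ) := by
      rw [div_mul_eq_mul_div, div_mul_eq_mul_div]
      congr 1
      linear_combination (-1 : ℂ) * hthZ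
    rw [h9, div_mul_eq_mul_div, div_eq_iff hC'c]
    linear_combination (-((A : ℂ) - V)) * hCec
  set X := ‖(A : ℂ) - V‖ with hX
  have hXu := norm_sub_le_aux hA0 hVs
  have hXl : A - ‖V‖ ≤ X := by
    have := norm_sub_norm_le (A : ℂ) V
    rw [Complex.norm_real, Real.norm_of_nonneg (by linarith)] at this
    exact this
  have hAm' : Am T x0 th (k + 1) = x0 / ‖th‖ * (X / (1 - e)) := by
    have h7 := congrArg norm hkey
    rw [norm_mul, norm_mul, hEn, mul_one, norm_div, norm_mul, Complex.norm_real,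
      Real.norm_of_nonneg hx0p.le] at h7
    have h8 : ‖(1 - (e : ℂ))‖ = 1 - e := by
      have : (1 - (e : ℂ)) = ((1 - e : ℝ) : ℂ) := by push_cast; ring
      rw [this, Complex.norm_real, Real.norm_of_nonneg h1e.le]
    rw [h8] at h7
    have h9 : Am T x0 th (k + 1) = ‖xin T x0 th (1525 + k + 1)‖ := rfl
    rw [h9]
    have h10 : ‖xin T x0 th (1525 + k + 1)‖ = x0 * ‖(A : ℂ) - V‖ / (1 - e) / ‖th‖ := by
      rw [← h7, mul_div_cancel_right₀ _ hthp.ne']
    rw [h10]
    ring
  have hX0 : 0 ≤ X := norm_nonneg _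
  have hkkV : kk T x0 th k ≤ V.re - 1.07 * e - ‖V‖ / 10 ^ 3 := by
    have h7 : kk T x0 th k ≤ ∑ d ∈ Finset.Icc (1 : ℕ) 55, (pih T x0 k d * (v d).re
        + 1.07 * (pih T x0 k d * (x0 * cdc T x0 d)) - pih T x0 k d * ‖v d‖ / 10 ^ 3) := by
      refine Finset.sum_le_sum fun d hd => ?_
      rcases hpiz d hd with h | ⟨h1, h2, h3, h4, h5⟩
      · rw [h]; simp
      · have h8 := ctx.ncell.kc (cell T x0 th k) h4 h5 d h1 h2 p hcell1 hcell2.le
        have h9 := (ctx.nk.cd d h1 h3).1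
        rw [abs_of_nonpos h9] at h8
        have h10 := mul_le_mul_of_nonneg_right h8 (hpi0 d hd)
        refine h10.trans (le_of_eq ?_)
        rw [hvn]
        simp only [hv, hE]
        ring
    rw [Finset.sum_sub_distrib, Finset.sum_add_distrib, ← Finset.mul_sum, ← hVre,
      ← Finset.sum_div] at h7
    have h11 : ‖V‖ / 10 ^ 3 ≤ (∑ d ∈ Finset.Icc (1 : ℕ) 55, pih T x0 k d * ‖v d‖) / 10 ^ 3 :=
      div_le_div_of_nonneg_right hVn (by norm_num)
    have h12 : ∑ d ∈ Finset.Icc (1 : ℕ) 55, pih T x0 k d * (x0 * cdc T x0 d) = -e := by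
      rw [he, neg_neg]
    rw [h12] at h7
    linarith
  have hlow : A - zz T x0 k ≤ Am T x0 th (k + 1) := by
    have h7 : X ≤ X / (1 - e) := by
      rw [le_div_iff₀ h1e]; nlinarith
    have h8 : X / (1 - e) ≤ x0 / ‖th‖ * (X / (1 - e)) := by
      have : 0 ≤ X / (1 - e) := div_nonneg hX0 h1e.le
      nlinarith
    rw [hAm']
    linarith
  refine ⟨?_, hlow, ?_, ?_, hkk0, hzz0, hzz1, hDh0, hDh1⟩
  · have h7 : X / (1 - e) ≤ A - kk T x0 th k := by
      rw [div_le_iff₀ h1e]
      have : X ≤ A - kk T x0 th k - 1.07 * e := by linarith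
      nlinarith
    have h8 : 0 ≤ X / (1 - e) := div_nonneg hX0 h1e.le
    rw [hAm']
    calc x0 / ‖th‖ * (X / (1 - e)) ≤ 1.00000992 * (A - kk T x0 th k) :=
          mul_le_mul hrho1 h7 h8 (by norm_num)
      _ ≤ _ := by nlinarith
  · nlinarith
  · -- the drift
    have h7 : dph T x0 th k = ((A : ℂ) - V).arg / w := by
      have h8 : dph T x0 th k = (xin T x0 th (1525 + k + 1) * th /
          ((x0 : ℂ) * xin T x0 th (1525 + k))).arg / w := by
        unfold dph
        simp only [ph]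
        ring
      rw [h8]
      congr 1
      have hE0 : E ≠ 0 := by
        intro h; rw [h, norm_zero] at hEn; norm_num at hEn
      have hAc : (A : ℂ) ≠ 0 := by
        have : A ≠ 0 := by linarith
        exact_mod_cast this
      have h9 : xin T x0 th (1525 + k + 1) * th / ((x0 : ℂ) * xin T x0 th (1525 + k)) =
          ((1 / (A * (1 - e)) : ℝ) : ℂ) * ((A : ℂ) - V) := by
        have h10 : xin T x0 th (1525 + k + 1) * th / ((x0 : ℂ) * xin T x0 th (1525 + k)) =
            (xin T x0 th (1525 + k + 1) * th * E) /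
              ((x0 : ℂ) * (xin T x0 th (1525 + k) * E)) := by
          rw [← mul_assoc, mul_div_mul_right _ _ hE0]
        rw [h10, hkey, hxE]
        push_cast
        field_simp
      rw [h9, Complex.arg_real_mul _ (by positivity)]
    have h8 : 0.898 ≤ ((A : ℂ) - V).re := by
      have := abs_le.1 (Complex.abs_re_le_norm V)
      simp only [Complex.sub_re, Complex.ofReal_re]
      norm_num at hVs ⊢
      linarith
    have h9 := abs_arg_le (w := (A : ℂ) - V) (by linarith)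
    have h10 : |((A : ℂ) - V).im| = |V.im| := by
      simp only [Complex.sub_im, Complex.ofReal_im, zero_sub, abs_neg]
    rw [h10] at h9
    have h8' : 0.9 / 1.002 ≤ ((A : ℂ) - V).re := by
      have := abs_le.1 (Complex.abs_re_le_norm V)
      simp only [Complex.sub_re, Complex.ofReal_re]
      norm_num at hVs ⊢
      linarith
    have h11 : |V.im| / ((A : ℂ) - V).re ≤ |V.im| * 1.002 / 0.9 := by
      have h12 : |V.im| * 1.002 / 0.9 = |V.im| / (0.9 / 1.002) := by
        field_simp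
      rw [h12]
      exact div_le_div_of_nonneg_left (abs_nonneg _) (by norm_num) h8'
    rw [h7, abs_div, abs_of_pos hompos]
    have h13 : |V.im| * 1.002 / (0.9 * w) ≤ (drt (cell T x0 th k) : ℝ) / 10 ^ 9 * Dh T x0 k := by
      have h14 : |V.im| ≤ ∑ d ∈ Finset.Icc (1 : ℕ) 55, pih T x0 k d * |(v d).im| := by
        rw [hVim]
        refine (Finset.abs_sum_le_sum_abs _ _).trans (le_of_eq ?_)
        refine Finset.sum_congr rfl fun d hd => ?_
        rw [abs_mul, abs_of_nonneg (hpi0 d hd)]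
      have h15 : |V.im| * 1.002 / (0.9 * w) ≤
          ∑ d ∈ Finset.Icc (1 : ℕ) 55, pih T x0 k d * (|(v d).im| * 1.002 / (0.9 * w)) := by
        have h16 : |V.im| * 1.002 / (0.9 * w) ≤
            (∑ d ∈ Finset.Icc (1 : ℕ) 55, pih T x0 k d * |(v d).im|) * 1.002 / (0.9 * w) := by
          apply div_le_div_of_nonneg_right _ (by positivity)
          exact mul_le_mul_of_nonneg_right h14 (by norm_num)
        refine h16.trans (le_of_eq ?_)
        rw [Finset.sum_mul, Finset.sum_div]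
        refine Finset.sum_congr rfl fun d _ => ?_
        ring
      refine h15.trans ?_
      rw [← hsum, Finset.mul_sum]
      refine Finset.sum_le_sum fun d hd => ?_
      rcases hpiz d hd with h | ⟨h1, h2, h3, h4, h5⟩
      · rw [h]; simp
      · have h16 := ctx.ncell.dr (cell T x0 th k) h4 h5 d h1 h3 p hcell1 hcell2.le
        have h17 := mul_le_mul_of_nonneg_left h16 (hpi0 d hd)
        refine h17.trans (le_of_eq ?_)
        ring
    refine le_trans ?_ h13
    rw [show |V.im| * 1.002 / (0.9 * w) = |V.im| * 1.002 / 0.9 / w by rw [div_div]]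
    exact div_le_div_of_nonneg_right (h9.trans h11) hompos.le
where
  pos_of_mul_pos_of_pos_left' {x y : ℝ} (h : 0 < x * y) (hx : 0 < x) : 0 < y := by
    by_contra hc
    nlinarith

end SA.H75
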