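import Pool.Agent.Helper88_SA.StmtA

/-! TOP and PD -/

namespace SA.H75

open SA Filter Topology

theorem next_Q (T : ℝ) (n j : ℕ) : (gr T (n + 1)).Q j = (gr T n).ins j := rfl

theorem ins_zero (s : St) : s.ins 0 = max (s.Q 0) s.B := by simp [St.ins]

theorem ins_succ (s : St) (j : ℕ) (hj : j + 1 < 56) :
    s.ins (j + 1) = max (s.Q (j + 1)) (min (s.Q j) s.B) := by
  simp [St.ins, hj]

/-- insertion: the multiset of the new list is the old one plus `B` minus the last entry -/
theorem sum_ins {M : Type*} [AddCommMonoid M] (f : ℝ → M) (s : St)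
    (hs : ∀ i j, i ≤ j → j < 56 → s.Q j ≤ s.Q i) (k : ℕ) (hk : k < 56) :
    ∑ j ∈ Finset.range (k + 1), f (s.ins j) + f (min (s.Q k) s.B) =
      ∑ j ∈ Finset.range (k + 1), f (s.Q j) + f s.B := by
  induction k with
  | zero =>
    simp only [zero_add, Finset.sum_range_one, ins_zero]
    rcases le_total (s.Q 0) s.B with h | h
    · rw [max_eq_right h, min_eq_left h, add_comm]
    · rw [max_eq_left h, min_eq_right h]
  | succ k ih =>
    have ih' := ih (by omega)
    rw [Finset.sum_range_succ _ (k + 1), Finset.sum_range_succ (fun j => f (s.Q j)) (k + 1),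
      ins_succ s k hk]
    have h1 : s.Q (k + 1) ≤ s.Q k := hs k (k + 1) (by omega) hk
    have h2 : f (max (s.Q (k + 1)) (min (s.Q k) s.B)) + f (min (s.Q (k + 1)) s.B) =
        f (s.Q (k + 1)) + f (min (s.Q k) s.B) := by
      have e : min (s.Q (k + 1)) s.B = min (s.Q (k + 1)) (min (s.Q k) s.B) := by
        rw [← min_assoc, min_eq_left h1]
      rw [e]
      rcases le_total (s.Q (k + 1)) (min (s.Q k) s.B) with h | h
      · rw [max_eq_right h, min_eq_left h, add_comm]
      · rw [max_eq_left h, min_eq_right h]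
    calc ∑ j ∈ Finset.range (k + 1), f (s.ins j) +
          f (max (s.Q (k + 1)) (min (s.Q k) s.B)) + f (min (s.Q (k + 1)) s.B)
        = ∑ j ∈ Finset.range (k + 1), f (s.ins j) +
          (f (max (s.Q (k + 1)) (min (s.Q k) s.B)) + f (min (s.Q (k + 1)) s.B)) := add_assoc _ _ _
      _ = ∑ j ∈ Finset.range (k + 1), f (s.ins j) +
          (f (s.Q (k + 1)) + f (min (s.Q k) s.B)) := by rw [h2]
      _ = (∑ j ∈ Finset.range (k + 1), f (s.ins j) + f (min (s.Q k) s.B)) + f (s.Q (k + 1)) := by
        abel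
      _ = (∑ j ∈ Finset.range (k + 1), f (s.Q j) + f s.B) + f (s.Q (k + 1)) := by rw [ih']
      _ = _ := by abel

theorem sum_next {M : Type*} [AddCommMonoid M] (f : ℝ → M) (T : ℝ) (n : ℕ)
    (hs : ∀ i j, i ≤ j → j < 56 → (gr T n).Q j ≤ (gr T n).Q i) (hv : Valid T n) :
    ∑ j ∈ Finset.range 56, f ((gr T (n + 1)).Q j) + f ((gr T n).Q 55) =
      ∑ j ∈ Finset.range 56, f ((gr T n).Q j) + f (Bn T n) := by
  have h := sum_ins f (gr T n) hs 55 (by norm_num)
  have h2 : min ((gr T n).Q 55) (gr T n).B = (gr T n).Q 55 := min_eq_left hv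
  rw [h2] at h
  exact h

theorem next_ge (T : ℝ) (n : ℕ) : (gr T n).Q 55 ≤ (gr T (n + 1)).Q 55 := by
  rw [next_Q, ins_succ _ 54 (by norm_num)]
  exact le_max_left _ _

theorem top (hsort : SortStmt) : TopStmt := by
  intro T n
  induction n with
  | zero =>
    intro _ x hx
    have hx0 : (0 : ℝ) ≤ x := hx
    constructor
    · rw [Finset.sum_range_zero]
      refine Finset.sum_eq_zero fun j _ => ?_
      change max ((0 : ℝ) - x) 0 = 0
      exact max_eq_right (by linarith)
    · rw [Finset.range_zero, Finset.filter_empty, Finset.card_empty, Finset.card_eq_zero,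
        Finset.filter_eq_empty_iff]
      intro j _
      change ¬ x < (0 : ℝ)
      exact not_lt.2 hx0
  | succ n ih =>
    intro hv x hx
    have hs := (hsort T n).1
    have hvn := hv n (Nat.lt_succ_self n)
    have hx' : (gr T n).Q 55 ≤ x := (next_ge T n).trans hx
    obtain ⟨h1, h2⟩ := ih (fun m hm => hv m (by omega)) x hx'
    constructor
    · have h3 := sum_next (fun y => max (y - x) 0) T n hs hvn
      have h4 : max ((gr T n).Q 55 - x) 0 = 0 := max_eq_right (by linarith)
      simp only [h4, add_zero] at h3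
      rw [h3, h1, Finset.sum_range_succ]
    · have h3 := sum_next (fun y => if x < y then (1 : ℕ) else 0) T n hs hvn
      have h4 : (if x < (gr T n).Q 55 then (1 : ℕ) else 0) = 0 := if_neg (not_lt.2 hx')
      simp only [h4, add_zero] at h3
      rw [Finset.card_filter, h3, ← Finset.card_filter, h2, Finset.card_filter,
        Finset.card_filter, Finset.sum_range_succ]

theorem Q_le_of_kap_le (T : ℝ) (n : ℕ)
    (hs : ∀ i j, i ≤ j → j < 56 → (gr T n).Q j ≤ (gr T n).Q i) (j : ℕ) (hj : j < 56)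
    (hk : kap T n ≤ j) : (gr T n).Q j ≤ (gr T n).B := by
  by_contra hc
  rw [not_le] at hc
  have hsub : Finset.range (j + 1) ⊆
      (Finset.range 56).filter (fun j => (gr T n).B < (gr T n).Q j) := by
    intro i hi
    rw [Finset.mem_range] at hi
    rw [Finset.mem_filter, Finset.mem_range]
    exact ⟨by omega, lt_of_lt_of_le hc (hs i j (by omega) hj)⟩
  have := Finset.card_le_card hsub
  rw [Finset.card_range] at this
  unfold kap at hk
  omega

theorem pd_eq (T : ℝ) (n : ℕ)
    (hs : ∀ i j, i ≤ j → j < 56 → (gr T n).Q j ≤ (gr T n).Q i) (d : ℕ) (hd : d + 1 ≤ 55) :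
    pd T n (d + 1) = max ((gr T n).Q d - (gr T n).B) 0 - max ((gr T n).Q (d + 1) - (gr T n).B) 0 := by
  unfold pd
  rw [Nat.add_sub_cancel]
  have h1 := hs d (d + 1) (by omega) (by omega)
  rcases le_total ((gr T n).Q d) (gr T n).B with h | h
  · rw [min_eq_left h, max_eq_right h1, max_eq_right (by linarith : (gr T n).Q d - (gr T n).B ≤ 0),
      max_eq_right (by linarith : (gr T n).Q (d + 1) - (gr T n).B ≤ 0)]
    ring
  · rw [min_eq_right h, max_eq_left (by linarith : 0 ≤ (gr T n).Q d - (gr T n).B)]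
    rcases le_total ((gr T n).Q (d + 1)) (gr T n).B with h2 | h2
    · rw [max_eq_right h2, max_eq_right (by linarith : (gr T n).Q (d + 1) - (gr T n).B ≤ 0)]
      ring
    · rw [max_eq_left h2, max_eq_left (by linarith : 0 ≤ (gr T n).Q (d + 1) - (gr T n).B)]
      ring

theorem sum_tele (a : ℕ → ℝ) (k : ℕ) :
    ∑ d ∈ Finset.range k, ((d : ℝ) + 1) * (a d - a (d + 1)) =
      ∑ j ∈ Finset.range k, a j - k * a k := by
  induction k with
  | zero => simp
  | succ k ih =>
    rw [Finset.sum_range_succ, ih, Finset.sum_range_succ]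
    push_cast
    ring

theorem sum_Icc_range (f : ℕ → ℝ) :
    ∑ d ∈ Finset.Icc (1 : ℕ) 55, f d = ∑ d ∈ Finset.range 55, f (d + 1) := by
  rw [Finset.sum_bij (fun d _ => d - 1)]
  · intro d hd
    rw [Finset.mem_Icc] at hd
    rw [Finset.mem_range]; omega
  · intro a ha b hb h
    rw [Finset.mem_Icc] at ha hb
    omega
  · intro b hb
    rw [Finset.mem_range] at hb
    exact ⟨b + 1, by rw [Finset.mem_Icc]; omega, by simp⟩
  · intro a ha
    rw [Finset.mem_Icc] at ha
    have : a - 1 + 1 = a := by omega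
    simp only [this]

theorem pdProof (hsort : SortStmt) : PdStmt := by
  intro T n hv
  have hs := (hsort T n).1
  have hvn : (gr T n).Q 55 ≤ (gr T n).B := hv n le_rfl
  refine ⟨?_, ?_, ?_, ?_, ?_⟩
  · intro d h1 h2
    obtain ⟨e, rfl⟩ : ∃ e, d = e + 1 := ⟨d - 1, by omega⟩
    have h3 := hs e (e + 1) (by omega) (by omega)
    unfold pd Nd
    rw [Nat.add_sub_cancel]
    constructor
    · have : max ((gr T n).Q (e + 1)) (min ((gr T n).Q e) (gr T n).B) ≤ (gr T n).Q e :=
        max_le h3 (min_le_left _ _)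
      linarith
    · have := le_max_left ((gr T n).Q (e + 1)) (min ((gr T n).Q e) (gr T n).B)
      linarith
  · intro d h1 h2
    obtain ⟨e, rfl⟩ : ∃ e, d = e + 1 := ⟨d - 1, by omega⟩
    have h3 := hs e (e + 1) (by omega) (by omega)
    have h4 := Q_le_of_kap_le T n hs e (by omega) (by omega)
    unfold pd
    rw [Nat.add_sub_cancel, min_eq_left h4, max_eq_right h3, sub_self]
  · intro _
    rw [sum_Icc_range]
    have h1 : ∀ d ∈ Finset.range 55, (((d + 1 : ℕ) : ℕ) : ℝ) * pd T n (d + 1) =
        ((d : ℝ) + 1) * (max ((gr T n).Q d - (gr T n).B) 0 -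
          max ((gr T n).Q (d + 1) - (gr T n).B) 0) := by
      intro d hd
      rw [Finset.mem_range] at hd
      rw [pd_eq T n hs d (by omega)]
      push_cast
      ring
    rw [Finset.sum_congr rfl h1,
      sum_tele (fun j => max ((gr T n).Q j - (gr T n).B) 0) 55]
    have h2 : max ((gr T n).Q 55 - (gr T n).B) 0 = 0 := max_eq_right (by linarith)
    unfold Dn
    rw [Finset.sum_range_succ _ 55, h2]
    simp
  · intro hk
    unfold kap at hk
    obtain ⟨j, hj⟩ := Finset.card_pos.1 hk
    rw [Finset.mem_filter] at hj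
    unfold Dn
    refine Finset.sum_pos' (fun i _ => le_max_right _ _) ⟨j, hj.1, ?_⟩
    exact lt_max_of_lt_left (by linarith [hj.2])
  · intro d h1 h2
    obtain ⟨e, rfl⟩ : ∃ e, d = e + 1 := ⟨d - 1, by omega⟩
    have key : ∀ i, i + 1 ≤ 55 → (gr T (n + 1)).Q (i + 1) = (gr T n).Q i - pd T n (i + 1) := by
      intro i hi
      rw [next_Q, ins_succ _ _ (by omega)]
      unfold pd
      rw [Nat.add_sub_cancel]
      ring
    have e1 : Nd T (n + 1) (e + 1) = (gr T (n + 1)).Q e - (gr T (n + 1)).Q (e + 1) := by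
      unfold Nd; rw [Nat.add_sub_cancel]
    rw [e1, key e h2]
    rcases Nat.eq_zero_or_pos e with h3 | h3
    · subst h3
      rw [if_pos rfl, next_Q, ins_zero]
      change max ((gr T n).Q 0) (gr T n).B - _ = max ((gr T n).B - (gr T n).Q 0) 0 + _
      rcases le_total ((gr T n).Q 0) (gr T n).B with h | h
      · rw [max_eq_right h, max_eq_left (by linarith : 0 ≤ (gr T n).B - (gr T n).Q 0)]
        ring
      · rw [max_eq_left h, max_eq_right (by linarith : (gr T n).B - (gr T n).Q 0 ≤ 0)]
        ring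
    · obtain ⟨f, rfl⟩ : ∃ f, e = f + 1 := ⟨e - 1, by omega⟩
      rw [if_neg (by omega), key f (by omega), Nat.add_sub_cancel]
      unfold Nd
      rw [Nat.add_sub_cancel]
      ring

end SA.H75
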