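import Pool.Agent.Helper75_SA.Top

/-! TOPSET, WPOS, QZERO -/

namespace SA.H75

open SA Filter Topology

theorem sum_tele_min (a : ℕ → ℝ) (i k : ℕ) :
    ∑ d ∈ Finset.range k, ((min (d + 1) i : ℕ) : ℝ) * (a d - a (d + 1)) =
      ∑ j ∈ Finset.range (min i k), a j - ((min k i : ℕ) : ℝ) * a k := by
  induction k with
  | zero => simp
  | succ k ih =>
    rw [Finset.sum_range_succ, ih]
    rcases Nat.lt_or_ge k i with h | h
    · have e1 : min i k = k := by omega
      have e2 : min k i = k := by omega
      have e3 : min (k + 1) i = k + 1 := by omega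
      have e4 : min i (k + 1) = k + 1 := by omega
      rw [e1, e2, e3, e4, Finset.sum_range_succ]
      push_cast
      ring
    · have e1 : min i k = i := by omega
      have e2 : min k i = i := by omega
      have e3 : min (k + 1) i = i := by omega
      have e4 : min i (k + 1) = i := by omega
      rw [e1, e2, e3, e4]
      ring

theorem topSet (hsort : SortStmt) (_hbar : BarStmt) (htop : TopStmt) : TopSetStmt := by
  intro T n hv I hI
  have hs := (hsort T n).1
  have hvn : (gr T n).Q 55 ≤ (gr T n).B := hv n le_rfl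
  have hBn : Bn T n = (gr T n).B := rfl
  set a : ℕ → ℝ := fun j => max ((gr T n).Q j - (gr T n).B) 0 with ha
  have ha55 : a 55 = 0 := max_eq_right (by linarith)
  have ha0 : ∀ j, 0 ≤ a j := fun j => le_max_right _ _
  have hsum : ∑ d ∈ Finset.Icc (1 : ℕ) 55, (min d I.card : ℕ) * pd T n d =
      ∑ j ∈ Finset.range (min I.card 55), a j := by
    rw [sum_Icc_range (fun d => ((min d I.card : ℕ) : ℝ) * pd T n d)]
    have h1 : ∀ d ∈ Finset.range 55, ((min (d + 1) I.card : ℕ) : ℝ) * pd T n (d + 1) =
        ((min (d + 1) I.card : ℕ) : ℝ) * (a d - a (d + 1)) := by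
      intro d hd
      rw [Finset.mem_range] at hd
      rw [pd_eq T n hs d (by omega)]
    rw [Finset.sum_congr rfl h1, sum_tele_min, ha55, mul_zero, sub_zero]
  rw [hsum]
  have hsub : ∀ y : ℝ, ∑ m ∈ I, max (Bn T m - y) 0 ≤
      ∑ m ∈ Finset.range n, max (Bn T m - y) 0 := fun y =>
    Finset.sum_le_sum_of_subset_of_nonneg hI fun m _ _ => le_max_right _ _
  rcases Nat.lt_or_ge I.card 56 with hc | hc
  · -- small sets
    rcases Nat.eq_zero_or_pos I.card with h0 | h0
    · rw [Finset.card_eq_zero] at h0
      rw [h0]; simp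
    · obtain ⟨i, hi⟩ : ∃ i, I.card = i + 1 := ⟨I.card - 1, by omega⟩
      set y : ℝ := max ((gr T n).Q i) (gr T n).B with hy
      have hyB : (gr T n).B ≤ y := le_max_right _ _
      obtain ⟨h1, -⟩ := htop T n (fun m hm => hv m (by omega)) y (hvn.trans hyB)
      have h2 : ∑ m ∈ I, (Bn T m - Bn T n) ≤
          ∑ m ∈ I, (max (Bn T m - y) 0 + (y - (gr T n).B)) := by
        refine Finset.sum_le_sum fun m _ => ?_
        have := le_max_left (Bn T m - y) 0
        rw [hBn]; linarith
      have h3 : ∑ m ∈ I, (max (Bn T m - y) 0 + (y - (gr T n).B)) =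
          ∑ m ∈ I, max (Bn T m - y) 0 + (I.card : ℝ) * (y - (gr T n).B) := by
        rw [Finset.sum_add_distrib, Finset.sum_const, nsmul_eq_mul]
      have h4 : ∑ j ∈ Finset.range 56, max ((gr T n).Q j - y) 0 =
          ∑ j ∈ Finset.range (i + 1), max ((gr T n).Q j - y) 0 := by
        symm
        refine Finset.sum_subset ?_ ?_
        · intro j hj
          rw [Finset.mem_range] at hj ⊢
          omega
        · intro j hj hj2
          rw [Finset.mem_range] at hj hj2
          have h5 := hs i j (by omega) hj
          have h6 : (gr T n).Q i ≤ y := le_max_left _ _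
          exact max_eq_right (by linarith)
      have h5 : ∀ j ∈ Finset.range (i + 1), max ((gr T n).Q j - y) 0 + (y - (gr T n).B) = a j := by
        intro j hj
        rw [Finset.mem_range] at hj
        have h6 := hs j i (by omega) (by omega)
        simp only [ha]
        rcases le_total ((gr T n).Q i) (gr T n).B with h7 | h7
        · have : y = (gr T n).B := max_eq_right h7
          rw [this]; ring
        · have h8 : y = (gr T n).Q i := max_eq_left h7
          rw [h8, max_eq_left (by linarith : 0 ≤ (gr T n).Q j - (gr T n).Q i),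
            max_eq_left (by linarith : 0 ≤ (gr T n).Q j - (gr T n).B)]
          ring
      have h6 : ∑ j ∈ Finset.range (i + 1), max ((gr T n).Q j - y) 0 +
          ((i : ℝ) + 1) * (y - (gr T n).B) = ∑ j ∈ Finset.range (i + 1), a j := by
        rw [← Finset.sum_congr rfl h5, Finset.sum_add_distrib, Finset.sum_const,
          Finset.card_range, nsmul_eq_mul]
        push_cast
        ring
      have h7 : ∑ j ∈ Finset.range (min I.card 55), a j = ∑ j ∈ Finset.range (i + 1), a j := by
        rcases Nat.lt_or_ge i 55 with h8 | h8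
        · rw [hi, Nat.min_eq_left (by omega)]
        · have h9 : i = 55 := by omega
          subst h9
          rw [hi, Nat.min_eq_right (by omega), Finset.sum_range_succ _ 55, ha55, add_zero]
      have h8 := hsub y
      have h9 : (I.card : ℝ) = (i : ℝ) + 1 := by rw [hi]; push_cast; ring
      rw [h7, ← h6]
      rw [h3, h9] at h2
      linarith
  · -- large sets
    obtain ⟨h1, -⟩ := htop T n (fun m hm => hv m (by omega)) (gr T n).B hvn
    have h2 : ∑ m ∈ I, (Bn T m - Bn T n) ≤ ∑ m ∈ I, max (Bn T m - (gr T n).B) 0 :=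
      Finset.sum_le_sum fun m _ => le_max_left _ _
    have h3 : ∑ j ∈ Finset.range (min I.card 55), a j = ∑ j ∈ Finset.range 56, a j := by
      rw [Nat.min_eq_right (by omega), Finset.sum_range_succ _ 55, ha55, add_zero]
    have h8 := hsub (gr T n).B
    rw [h3]
    simp only [ha]
    linarith

theorem wpos (hsort : SortStmt) (hbar : BarStmt) (_htop : TopStmt) : WposStmt := by
  intro T m hm hv
  obtain ⟨n, rfl⟩ : ∃ n, m = n + 1 := ⟨m - 1, by omega⟩
  rcases le_or_gt (Bn T (n + 1)) ((gr T (n + 1)).Q 0) with h | h
  · exact (sub_nonpos.2 h).trans (le_max_right _ _)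
  · refine le_max_of_le_left ?_
    obtain ⟨-, -, h1⟩ := hbar T (n + 1) (hv _ le_rfl)
    obtain ⟨-, -, h2⟩ := hbar T n (hv _ (Nat.le_succ n))
    have hs := (hsort T (n + 1)).1
    have hs' := (hsort T n).1
    have hB : Bn T (n + 1) = (gr T (n + 1)).B := rfl
    have hB' : Bn T n = (gr T n).B := rfl
    have h3 : Dn T (n + 1) = 0 := by
      unfold Dn
      refine Finset.sum_eq_zero fun j hj => ?_
      rw [Finset.mem_range] at hj
      have := hs 0 j (Nat.zero_le _) hj
      exact max_eq_right (by linarith)
    have hQ0 : (gr T (n + 1)).Q 0 = max ((gr T n).Q 0) (gr T n).B := by rw [next_Q, ins_zero]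
    have h4 : Dn T n ≤ 56 * ((gr T (n + 1)).Q 0 - Bn T n) := by
      unfold Dn
      have : ∀ j ∈ Finset.range 56, max ((gr T n).Q j - (gr T n).B) 0 ≤
          (gr T (n + 1)).Q 0 - Bn T n := by
        intro j hj
        rw [Finset.mem_range] at hj
        have h5 := hs' 0 j (Nat.zero_le _) hj
        have h6 := le_max_left ((gr T n).Q 0) (gr T n).B
        have h7 := le_max_right ((gr T n).Q 0) (gr T n).B
        rw [hQ0, hB']
        exact max_le (by linarith) (by linarith)
      have h5 := Finset.sum_le_sum this
      rw [Finset.sum_const, Finset.card_range, nsmul_eq_mul] at h5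
      exact_mod_cast h5
    unfold Wn
    rw [Nat.add_sub_cancel, le_div_iff₀ (by norm_num)]
    linarith

theorem qzero (hsort : SortStmt) : QzeroStmt := by
  intro T n hv
  have key : ∀ n, (∀ m, m < n → Bn T m ≤ (gr T n).Q 0) ∧
      ((gr T n).Q 0 = 0 ∨ ∃ m, m < n ∧ (gr T n).Q 0 = Bn T m) := by
    intro n
    induction n with
    | zero => exact ⟨fun m hm => absurd hm (Nat.not_lt_zero _), Or.inl rfl⟩
    | succ n ih =>
      obtain ⟨h1, h2⟩ := ih
      have hQ0 : (gr T (n + 1)).Q 0 = max ((gr T n).Q 0) (Bn T n) := by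
        rw [next_Q, ins_zero]; rfl
      rw [hQ0]
      constructor
      · intro m hm
        rcases Nat.lt_succ_iff_lt_or_eq.1 hm with h | h
        · exact (h1 m h).trans (le_max_left _ _)
        · rw [h]; exact le_max_right _ _
      · rcases le_total ((gr T n).Q 0) (Bn T n) with h | h
        · right; exact ⟨n, Nat.lt_succ_self n, max_eq_right h⟩
        · rw [max_eq_left h]
          rcases h2 with h2 | ⟨m, hm, h2⟩
          · exact Or.inl h2
          · exact Or.inr ⟨m, by omega, h2⟩
  have hs := (hsort T n).1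
  have h5 : kap T n = 0 ↔ (gr T n).Q 0 ≤ Bn T n := by
    unfold kap
    rw [Finset.card_eq_zero, Finset.filter_eq_empty_iff]
    constructor
    · intro h
      have := @h 0 (Finset.mem_range.2 (by norm_num))
      exact not_lt.1 this
    · intro h j hj
      rw [Finset.mem_range] at hj
      exact not_lt.2 ((hs 0 j (Nat.zero_le _) hj).trans h)
  refine ⟨(key n).1, (key n).2, ?_, ?_, h5⟩
  · intro m0 hm0 hn hm h0
    have h1 : (gr T m0).Q 0 ≤ Bn T m0 := by
      rcases (key m0).2 with h | ⟨m, h2, h3⟩
      · rw [h]; exact h0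
      · rw [h3]; exact hm m h2
    have h2 : ∀ i, i < 56 → (gr T (m0 + i)).Q i ≤ Bn T m0 := by
      intro i
      induction i with
      | zero => intro _; exact h1
      | succ i ih =>
        intro hi
        have h3 := ih (by omega)
        have h4 : (gr T (m0 + (i + 1))).Q (i + 1) ≤ (gr T (m0 + i)).Q i := by
          have e : m0 + (i + 1) = m0 + i + 1 := by omega
          rw [e, next_Q, ins_succ _ _ hi]
          exact max_le ((hsort T (m0 + i)).1 i (i + 1) (by omega) hi) (min_le_left _ _)
        exact h4.trans h3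
    have h3 := h2 (n - m0) (by omega)
    have e : m0 + (n - m0) = n := by omega
    rw [e] at h3
    exact (hs (n - m0) 55 (by omega) (by norm_num)).trans h3
  · intro hk m hm
    exact ((key n).1 m hm).trans (h5.1 hk)

end SA.H75
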